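import Mathlib

namespace Pool.Agent.H.MP_cab928_co

/-- the real binomial coefficient `z (z-1) ... (z-k+1) / k!` -/
noncomputable def rch (z : ℝ) (k : ℕ) : ℝ := (∏ j ∈ Finset.range k, (z - j)) / k.factorial

/-- degree of a vertex set -/
def deg {V : Type} [DecidableEq V] (H : Finset (Finset V)) (I : Finset V) : ℕ :=
  (H.filter fun e => I ⊆ e).card

/-- the `t`-cliques of a `q`-uniform hypergraph -/
def cliques {V : Type} [Fintype V] [DecidableEq V] (H : Finset (Finset V)) (q t : ℕ) :
    Finset (Finset V) :=
  (Finset.univ.powersetCard t).filter fun T => T.powersetCard q ⊆ H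

end Pool.Agent.H.MP_cab928_co
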