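import Pool.Agent.H.MP_cab928_co.Defs

namespace Pool.Agent.H.MP_cab928_co

open Finset

theorem rch_zero (z : ℝ) : rch z 0 = 1 := by simp [rch]

theorem rch_succ (z : ℝ) (k : ℕ) : rch z (k + 1) * (k + 1) = rch z k * (z - k) := by
  unfold rch
  rw [prod_range_succ, Nat.factorial_succ]
  push_cast
  field_simp

theorem rch_succ' (z : ℝ) (k : ℕ) : rch z (k + 1) * (k + 1) = z * rch (z - 1) k := by
  unfold rch
  rw [prod_range_succ', Nat.factorial_succ]
  have : ∏ j ∈ range k, (z - ((j + 1 : ℕ) : ℝ)) = ∏ j ∈ range k, (z - 1 - j) :=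
    prod_congr rfl fun j _ => by push_cast; ring
  rw [this]
  push_cast
  field_simp
  ring

theorem rch_pos {z : ℝ} {k : ℕ} (h : (k : ℝ) ≤ z) : 0 < rch z k := by
  unfold rch
  refine div_pos (prod_pos fun j hj => ?_) (by positivity)
  have : (j : ℝ) < k := by exact_mod_cast mem_range.1 hj
  linarith

theorem rch_mono {z w : ℝ} {k : ℕ} (h : (k : ℝ) - 1 ≤ z) (hzw : z ≤ w) : rch z k ≤ rch w k := by
  unfold rch
  refine div_le_div_of_nonneg_right (prod_le_prod (fun j hj => ?_) fun j _ => by linarith)
    (by positivity)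
  have : (j : ℝ) + 1 ≤ k := by exact_mod_cast mem_range.1 hj
  linarith

theorem rch_lt {z w : ℝ} {k : ℕ} (h : (k : ℝ) ≤ z) (hzw : z < w) :
    rch z (k + 1) < rch w (k + 1) := by
  have h1 := rch_succ z k
  have h2 := rch_succ w k
  have h3 : rch z k ≤ rch w k := rch_mono (by linarith) hzw.le
  have h4 : 0 < rch w k := rch_pos (by linarith)
  have h5 : rch z k * (z - k) < rch w k * (w - k) :=
    lt_of_le_of_lt (mul_le_mul_of_nonneg_right h3 (by linarith))
      (mul_lt_mul_of_pos_left (by linarith) h4)
  have h6 : (0 : ℝ) < k + 1 := by positivity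
  exact lt_of_mul_lt_mul_right (by rw [h1, h2]; exact h5) h6.le

theorem rch_nat (n k : ℕ) : rch n k = n.choose k := by
  induction k with
  | zero => simp [rch_zero]
  | succ k ih =>
    have h1 := rch_succ n k
    have h6 : (k : ℝ) + 1 ≠ 0 := by positivity
    refine mul_right_cancel₀ h6 ?_
    rw [h1, ih]
    by_cases h : k ≤ n
    · have := Nat.choose_succ_right_eq n k
      rw [← Nat.cast_sub h]
      exact_mod_cast this.symm
    · rw [Nat.choose_eq_zero_of_lt (by omega), Nat.choose_eq_zero_of_lt (by omega)]; simp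

theorem rch_mul (y : ℝ) (r k : ℕ) :
    rch y (r + k) * (r + k).choose r = rch y r * rch (y - r) k := by
  unfold rch
  rw [prod_range_add]
  have : ∏ j ∈ range k, (y - ((r + j : ℕ) : ℝ)) = ∏ j ∈ range k, (y - r - j) :=
    prod_congr rfl fun j _ => by push_cast; ring
  rw [this]
  have h := Nat.add_choose_mul_factorial_mul_factorial k r
  rw [add_comm k r] at h
  rw [← h]
  have : ((r + k).choose r : ℝ) ≠ 0 := by
    exact_mod_cast (Nat.choose_pos (by omega)).ne'
  push_cast
  field_simp

theorem exists_root (i r d : ℕ) (hr : 1 ≤ r) :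
    ∃ z : ℝ, ((i + r : ℕ) : ℝ) - 1 ≤ z ∧ (d : ℝ) = rch (z - i) r := by
  obtain ⟨r', rfl⟩ : ∃ r', r = r' + 1 := ⟨r - 1, by omega⟩
  have hc : Continuous fun z : ℝ => rch z (r' + 1) := by unfold rch; fun_prop
  have h1 : d ≤ (r' + 1 + d).choose (r' + 1) := by
    induction d with
    | zero => omega
    | succ d ih =>
      rw [← add_assoc, Nat.choose_succ_succ']
      have := Nat.choose_pos (show r' ≤ r' + 1 + d by omega)
      omega
  have h2 := intermediate_value_Icc (show (r' : ℝ) ≤ ((r' + 1 + d : ℕ) : ℝ) by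
    exact_mod_cast (by omega)) hc.continuousOn
  obtain ⟨z, hz, hz'⟩ := h2 (show (d : ℝ) ∈ Set.Icc _ _ from ⟨by
    rw [rch_nat, Nat.choose_eq_zero_of_lt (by omega)]; simp, by
    rw [rch_nat]; exact_mod_cast h1⟩)
  refine ⟨z + i, by push_cast; linarith [hz.1], ?_⟩
  rw [add_sub_cancel_right]; exact hz'.symm

variable {V : Type} [Fintype V] [DecidableEq V]

def up (F : Finset (Finset V)) (r : ℕ) : Finset (Finset V) :=
  (univ.powersetCard (r + 1)).filter fun S => ∀ a ∈ S, S.erase a ∈ F

theorem dc (F : Finset (Finset V)) (r : ℕ) (h : ∀ e ∈ F, e.card = r) :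
    ∑ v, (F.filter fun e => v ∈ e).card = r * F.card := by
  simp only [card_filter]
  rw [sum_comm, mul_comm, ← smul_eq_mul, ← sum_const]
  refine sum_congr rfl fun e he => ?_
  rw [← card_filter, ← h e he]
  congr 1; ext; simp

theorem kk (r : ℕ) : ∀ (F : Finset (Finset V)) (x : ℝ), (∀ e ∈ F, e.card = r) → (r : ℝ) ≤ x →
    ((F.card : ℝ) < rch x r ∨ (1 ≤ r ∧ (F.card : ℝ) ≤ rch x r)) →
    ((r : ℝ) + 1) * (up F r).card ≤ (x - r) * F.card := by
  induction r with
  | zero =>
    intro F x _ _ h
    have h1 : F = ∅ := by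
      rcases h with h | h
      · rw [rch_zero] at h
        have : F.card < 1 := by exact_mod_cast h
        exact card_eq_zero.1 (by omega)
      · omega
    have h2 : up F 0 = ∅ := by
      refine filter_eq_empty_iff.2 fun S hS hh => ?_
      obtain ⟨a, ha⟩ := card_pos.1 (show 0 < S.card by rw [(mem_powersetCard.1 hS).2]; omega)
      have := hh a ha
      simp [h1] at this
    rw [h2, h1]; simp
  | succ r ih =>
    intro F x hF hx h
    have h' : (F.card : ℝ) ≤ rch x (r + 1) := by
      rcases h with h | h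
      · exact h.le
      · exact h.2
    push_cast at hx ⊢
    have key : ∀ v, ((r : ℝ) + 1) * ((up F (r + 1)).filter fun S => v ∈ S).card ≤
        (x - (r + 1)) * (F.filter fun e => v ∈ e).card := by
      intro v
      have hinj : Set.InjOn (fun S : Finset V => S.erase v)
          ((up F (r + 1)).filter fun S => v ∈ S : Finset (Finset V)) := by
        intro S hS S' hS' hh
        have a1 : v ∈ S := (mem_filter.1 hS).2
        have a2 : v ∈ S' := (mem_filter.1 hS').2
        rw [← insert_erase a1, ← insert_erase a2]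
        exact congrArg (insert v) hh
      by_cases hc : rch (x - 1) r ≤ (F.filter fun e => v ∈ e).card
      · have b1 : ((up F (r + 1)).filter fun S => v ∈ S).card ≤ (F.filter fun e => v ∉ e).card := by
          refine card_le_card_of_injOn _ (fun S hS => ?_) hinj
          have a1 := mem_filter.1 hS
          exact mem_filter.2 ⟨(mem_filter.1 a1.1).2 v a1.2, notMem_erase _ _⟩
        have b2 := card_filter_add_card_filter_not (s := F) (fun e => v ∈ e)
        have b3 : (((up F (r + 1)).filter fun S => v ∈ S).card : ℝ) +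
            (F.filter fun e => v ∈ e).card ≤ F.card := by exact_mod_cast (by omega)
        have b4 := rch_succ' x r
        have b5 : x * rch (x - 1) r ≤ x * (F.filter fun e => v ∈ e).card :=
          mul_le_mul_of_nonneg_left hc (by have : (0 : ℝ) ≤ r := Nat.cast_nonneg r; linarith)
        have b6 : (0 : ℝ) ≤ r + 1 := by positivity
        nlinarith [mul_le_mul_of_nonneg_left (b3.trans h') b6]
      · let L := (F.filter fun e => v ∈ e).image fun e => e.erase v
        have b0 : L.card ≤ (F.filter fun e => v ∈ e).card := card_image_le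
        have b0' : (L.card : ℝ) ≤ (F.filter fun e => v ∈ e).card := by exact_mod_cast b0
        have b1 := ih L (x - 1) (fun e he => by
          obtain ⟨e', he', rfl⟩ := mem_image.1 he
          have := mem_filter.1 he'
          rw [card_erase_of_mem this.2, hF _ this.1]; rfl) (by linarith)
          (Or.inl (lt_of_le_of_lt b0' (not_le.1 hc)))
        have b2 : ((up F (r + 1)).filter fun S => v ∈ S).card ≤ (up L r).card := by
          refine card_le_card_of_injOn _ (fun S hS => ?_) hinj
          have a1 := mem_filter.1 hS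
          have a2 := mem_filter.1 a1.1
          refine mem_filter.2 ⟨mem_powersetCard.2 ⟨subset_univ _, ?_⟩, fun a ha => ?_⟩
          · rw [card_erase_of_mem a1.2, (mem_powersetCard.1 a2.1).2]; rfl
          · have a3 := mem_erase.1 ha
            refine mem_image.2 ⟨S.erase a, mem_filter.2 ⟨a2.2 a a3.2, mem_erase.2 ⟨a3.1.symm, a1.2⟩⟩,
              erase_right_comm⟩
        have b2' : (((up F (r + 1)).filter fun S => v ∈ S).card : ℝ) ≤ (up L r).card := by
          exact_mod_cast b2
        have b6 : (0 : ℝ) ≤ r + 1 := by positivity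
        have b7 := mul_le_mul_of_nonneg_left b2' b6
        have b8 := mul_le_mul_of_nonneg_left b0' (show 0 ≤ x - 1 - r by linarith)
        linarith
    have s1 := sum_le_sum (s := (univ : Finset V)) fun v _ => key v
    rw [← mul_sum, ← mul_sum, ← Nat.cast_sum, ← Nat.cast_sum, dc F (r + 1) hF,
      dc (up F (r + 1)) (r + 1 + 1) (fun e he => (mem_powersetCard.1 (mem_filter.1 he).1).2)] at s1
    push_cast at s1
    have b6 : (0 : ℝ) < r + 1 := by positivity
    refine le_of_mul_le_mul_left ?_ b6
    linarith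

theorem cl_le (F : Finset (Finset V)) (r : ℕ) (hr : 1 ≤ r) (y : ℝ) (hF : (F.card : ℝ) ≤ rch y r)
    (k : ℕ) (hk : ((r + k : ℕ) : ℝ) ≤ y) : ((cliques F r (r + k)).card : ℝ) ≤ rch y (r + k) := by
  induction k with
  | zero =>
    refine le_trans ?_ hF
    have : cliques F r (r + 0) ⊆ F := fun S hS => by
      have := mem_filter.1 hS
      exact this.2 (mem_powersetCard.2 ⟨Subset.refl _, (mem_powersetCard.1 this.1).2⟩)
    exact_mod_cast card_le_card this
  | succ k ih =>
    have hk' : ((r + k : ℕ) : ℝ) ≤ y := by push_cast at hk ⊢; linarith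
    have h1 := ih hk'
    have h2 := kk (r + k) (cliques F r (r + k)) y
      (fun e he => (mem_powersetCard.1 (mem_filter.1 he).1).2) hk' (Or.inr ⟨by omega, h1⟩)
    have h3 : cliques F r (r + (k + 1)) ⊆ up (cliques F r (r + k)) (r + k) := fun S hS => by
      have a1 := mem_filter.1 hS
      refine mem_filter.2 ⟨a1.1, fun a ha => mem_filter.2 ⟨mem_powersetCard.2 ⟨subset_univ _, ?_⟩,
        Subset.trans (powersetCard_mono (erase_subset _ _)) a1.2⟩⟩
      rw [card_erase_of_mem ha, (mem_powersetCard.1 a1.1).2]; rfl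
    have h3' : ((cliques F r (r + (k + 1))).card : ℝ) ≤ (up (cliques F r (r + k)) (r + k)).card := by
      exact_mod_cast card_le_card h3
    have h4 := rch_succ y (r + k)
    have b6 : (0 : ℝ) < ((r + k : ℕ) : ℝ) + 1 := by positivity
    refine le_of_mul_le_mul_left ?_ b6
    have h5 := mul_le_mul_of_nonneg_left h1 (show 0 ≤ y - ((r + k : ℕ) : ℝ) by linarith)
    have h6 := mul_le_mul_of_nonneg_left h3' b6.le
    rw [show r + (k + 1) = r + k + 1 from rfl] at *
    linarith

theorem deg_ge (H : Finset (Finset V)) (i r k : ℕ) (T I : Finset V)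
    (hT : T ∈ cliques H (i + r) (i + r + k)) (hI : I ⊆ T) (hc : I.card = i) :
    (r + k).choose r ≤ deg H I := by
  have a1 := mem_filter.1 hT
  have a2 : (T \ I).card = r + k := by
    rw [card_sdiff_of_subset hI, (mem_powersetCard.1 a1.1).2]; omega
  rw [← a2, ← card_powersetCard]
  refine card_le_card_of_injOn (fun R => I ∪ R) (fun R hR => ?_) (fun R hR R' hR' h => ?_)
  · have b := mem_powersetCard.1 hR
    have hd : Disjoint I R := disjoint_of_subset_right b.1 disjoint_sdiff
    refine mem_filter.2 ⟨a1.2 (mem_powersetCard.2 ⟨union_subset hI (b.1.trans sdiff_subset), ?_⟩),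
      subset_union_left⟩
    rw [card_union_of_disjoint hd, hc, b.2]
  · have hd : Disjoint I R := disjoint_of_subset_right (mem_powersetCard.1 hR).1 disjoint_sdiff
    have hd' : Disjoint I R' := disjoint_of_subset_right (mem_powersetCard.1 hR').1 disjoint_sdiff
    rw [← union_sdiff_cancel_left hd, ← union_sdiff_cancel_left hd']
    exact congrArg (· \ I) h

theorem link_le (H : Finset (Finset V)) (i r k : ℕ) (I : Finset V) (hc : I.card = i) :
    ((cliques H (i + r) (i + r + k)).filter fun T => I ⊆ T).card ≤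
      (cliques ((H.filter fun e => I ⊆ e).image fun e => e \ I) r (r + k)).card := by
  refine card_le_card_of_injOn (fun T => T \ I) (fun T hT => ?_) (fun T hT T' hT' h => ?_)
  · have a0 := mem_filter.1 hT
    have a1 := mem_filter.1 a0.1
    refine mem_filter.2 ⟨mem_powersetCard.2 ⟨subset_univ _, ?_⟩, fun R hR => ?_⟩
    · rw [card_sdiff_of_subset a0.2, (mem_powersetCard.1 a1.1).2]; omega
    · have b := mem_powersetCard.1 hR
      have hd : Disjoint I R := disjoint_of_subset_right b.1 disjoint_sdiff
      refine mem_image.2 ⟨I ∪ R, mem_filter.2 ⟨a1.2 (mem_powersetCard.2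
        ⟨union_subset a0.2 (b.1.trans sdiff_subset), ?_⟩), subset_union_left⟩,
        union_sdiff_cancel_left hd⟩
      rw [card_union_of_disjoint hd, hc, b.2]
  · rw [← sdiff_union_of_subset (mem_filter.1 hT).2, ← sdiff_union_of_subset (mem_filter.1 hT').2]
    exact congrArg (· ∪ I) h

theorem sum_deg (H : Finset (Finset V)) (q i : ℕ) (hH : ∀ e ∈ H, e.card = q) :
    ∑ I ∈ univ.powersetCard i, deg H I = H.card * q.choose i := by
  simp only [deg, card_filter]
  rw [sum_comm, ← smul_eq_mul, ← sum_const]
  refine sum_congr rfl fun e he => ?_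
  rw [← card_filter, ← hH e he, ← card_powersetCard]
  congr 1; ext I; simp [mem_powersetCard, and_comm]

theorem main (i r k : ℕ) (hr : 1 ≤ r) (H : Finset (Finset V)) (hH : ∀ e ∈ H, e.card = i + r)
    (x : Finset V → ℝ)
    (hx : ∀ I : Finset V, I.card = i →
      ((i + r : ℕ) : ℝ) - 1 ≤ x I ∧ (deg H I : ℝ) = rch (x I - i) r) :
    ∑ T ∈ cliques H (i + r) (i + r + k),
      1 / rch (sSup (x '' {I | I ⊆ T ∧ I.card = i}) - (i + r : ℕ)) k ≤
        H.card / (i + r + k).choose (i + r) := by
  have hy : ∀ T ∈ cliques H (i + r) (i + r + k), ∀ I ⊆ T, I.card = i →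
      ((r + k : ℕ) : ℝ) ≤ x I - i := by
    intro T hT I hI hc
    by_contra hlt
    obtain ⟨r', rfl⟩ : ∃ r', r = r' + 1 := ⟨r - 1, by omega⟩
    have a1 := hx I hc
    have a2 := rch_lt (k := r') (z := x I - i) (by have := a1.1; push_cast at this; linarith)
      (not_le.1 hlt)
    rw [rch_nat, ← a1.2] at a2
    have a3 := deg_ge H i (r' + 1) k T I hT hI hc
    have : ((r' + 1 + k).choose (r' + 1) : ℝ) ≤ deg H I := by exact_mod_cast a3
    linarith
  have hC1 : (0 : ℝ) < (i + r + k).choose i := by exact_mod_cast Nat.choose_pos (by omega)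
  have hC2 : (0 : ℝ) < (r + k).choose r := by exact_mod_cast Nat.choose_pos (by omega)
  have hC3 : (0 : ℝ) < (i + r + k).choose (i + r) := by exact_mod_cast Nat.choose_pos (by omega)
  have hid : ((i + r + k).choose (i + r) : ℝ) * (i + r).choose i =
      (i + r + k).choose i * (r + k).choose r := by
    have := Nat.choose_mul (n := i + r + k) (k := i + r) (s := i) (by omega)
    rw [show i + r + k - i = r + k by omega, show i + r - i = r by omega] at this
    exact_mod_cast this
  have step1 : ∀ T ∈ cliques H (i + r) (i + r + k),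
      ((i + r + k).choose i : ℝ) * (1 / rch (sSup (x '' {I | I ⊆ T ∧ I.card = i}) - (i + r : ℕ)) k) ≤
        ∑ I ∈ univ.powersetCard i, if I ⊆ T then 1 / rch (x I - i - r) k else 0 := by
    intro T hT
    have hcard := (mem_powersetCard.1 (mem_filter.1 hT).1).2
    rw [← sum_filter, show ((univ.powersetCard i).filter fun I => I ⊆ T) = T.powersetCard i by
      ext I; simp [mem_powersetCard, and_comm]]
    rw [← hcard, ← card_powersetCard, ← nsmul_eq_mul, ← sum_const]
    refine sum_le_sum fun I hI => ?_
    have b := mem_powersetCard.1 hI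
    have b1 := hy T hT I b.1 b.2
    have b2 : x I ≤ sSup (x '' {I | I ⊆ T ∧ I.card = i}) :=
      le_csSup (Set.Finite.bddAbove (Set.toFinite _)) ⟨I, b, rfl⟩
    push_cast at b1 ⊢
    exact one_div_le_one_div_of_le (rch_pos (by linarith)) (rch_mono (by linarith) (by linarith))
  have step2 : ∀ I ∈ (univ : Finset V).powersetCard i,
      (∑ T ∈ cliques H (i + r) (i + r + k), if I ⊆ T then 1 / rch (x I - i - r) k else 0) ≤
        (deg H I : ℝ) / (r + k).choose r := by
    intro I hI
    have hc := (mem_powersetCard.1 hI).2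
    rw [← sum_filter, sum_const, nsmul_eq_mul]
    rcases ((cliques H (i + r) (i + r + k)).filter fun T => I ⊆ T).eq_empty_or_nonempty with h | h
    · rw [h]; simp only [card_empty, Nat.cast_zero, zero_mul]; positivity
    · obtain ⟨T, hT⟩ := h
      have b1 := hy T (mem_filter.1 hT).1 I (mem_filter.1 hT).2 hc
      have b2 := cl_le ((H.filter fun e => I ⊆ e).image fun e => e \ I) r hr (x I - i)
        (by rw [← (hx I hc).2]; exact_mod_cast card_image_le) k b1
      have b3 : (((cliques H (i + r) (i + r + k)).filter fun T => I ⊆ T).card : ℝ) ≤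
          rch (x I - i) (r + k) := le_trans (by exact_mod_cast link_le H i r k I hc) b2
      have b4 := rch_mul (x I - i) r k
      have b5 : 0 < rch (x I - i - r) k := rch_pos (by push_cast at b1; linarith)
      rw [(hx I hc).2, mul_one_div, div_le_div_iff₀ b5 hC2, ← b4]
      exact mul_le_mul_of_nonneg_right b3 hC2.le
  have s1 := sum_le_sum step1
  rw [← mul_sum, sum_comm] at s1
  have s2 := s1.trans (sum_le_sum step2)
  rw [← sum_div, ← Nat.cast_sum, sum_deg H (i + r) i hH, le_div_iff₀ hC2] at s2
  push_cast at s2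
  rw [le_div_iff₀ hC3]
  have hC4 : (0 : ℝ) < (i + r).choose i := by exact_mod_cast Nat.choose_pos (by omega)
  refine le_of_mul_le_mul_right ?_ hC4
  rw [mul_assoc, hid]
  push_cast
  linarith

end Pool.Agent.H.MP_cab928_co
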